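import Pool.Agent.helper61.SP.SpecDX

/-!
# Project sp, module DXF: the spectral sample does not come close to the boundary (from DX8, DX9)
-/

namespace TP

open DP MeasureTheory

theorem DXF_hh (n : ℕ) : n ≤ hh n := by
  unfold hh
  apply Nat.le_floor
  have h3 : √3 ≤ 2 := by
    rw [show (2 : ℝ) = √4 by rw [show (4 : ℝ) = 2 ^ 2 by norm_num]; simp]
    exact Real.sqrt_le_sqrt (by norm_num)
  have h0 : 0 < √3 := Real.sqrt_pos.2 (by norm_num)
  rw [le_div_iff₀ h0]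
  nlinarith [(Nat.cast_nonneg n : (0 : ℝ) ≤ n)]

theorem DXF (h8 : DX8_stmt) (h9 : DX9_stmt) (h4 : UJ4_stmt) : DXF_stmt := by
  intro δ hδ
  obtain ⟨δ', hδ', L, hL, H8⟩ := h8 (δ / 4) (by positivity)
  obtain ⟨k, hk⟩ := pow_unbounded_of_one_lt (2 / δ') (one_lt_two : (1 : ℝ) < 2)
  have hk' : 2 ≤ δ' * 2 ^ k := by
    rw [div_lt_iff₀ hδ'] at hk
    linarith
  refine ⟨k, k + L.toNat, fun i hi => ?_⟩
  have hki : k ≤ i := by omega
  set r : ℕ := 2 ^ (i - k) with hr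
  have hrL : L ≤ r := by
    have h1 : i - k < 2 ^ (i - k) := Nat.lt_two_pow_self
    have h2 : L.toNat ≤ i - k := by omega
    omega
  have hr1 : 1 ≤ r := Nat.one_le_two_pow
  have hn : (2 : ℝ) ^ i = 2 ^ k * r := by
    rw [hr]
    push_cast
    rw [← pow_add, Nat.add_sub_cancel' hki]
  have hH : 2 ^ i ≤ hh (2 ^ i) := DXF_hh _
  set M : ℕ := hh (2 ^ i) with hM
  have hMr : (2 : ℝ) ^ i ≤ M := by exact_mod_cast hH
  have hi1 : (1 : ℝ) ≤ 2 ^ i := one_le_pow₀ (by norm_num)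
  have hrr : (1 : ℝ) ≤ r := by exact_mod_cast hr1
  have hkey : ((r + 1 : ℤ) : ℝ) ≤ δ' * 2 ^ i := by
    push_cast
    rw [hn]
    nlinarith
  have q := H8 1 (2 * 2 ^ i) 0 M (r + 1) (by omega)
    (by
      refine hkey.trans ?_
      push_cast
      nlinarith)
    (by
      refine hkey.trans ?_
      push_cast
      nlinarith)
  set G : Set (V → Bool) := Ev fun c => hcross c true (1 + (r + 1 : ℤ)) (2 * 2 ^ i - (r + 1 : ℤ))
    (0 + (r + 1 : ℤ)) (M - (r + 1 : ℤ)) with hG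
  have hdep : DP.Dep G {v | v ∈ VV i ∧ v ∉ {v | ¬ Bulk i k v}} := by
    intro b b' hb
    obtain ⟨Λ, hΛ, hd⟩ := (RLM true (1 + (r + 1 : ℤ)) (2 * 2 ^ i - (r + 1 : ℤ))
      (0 + (r + 1 : ℤ)) (M - (r + 1 : ℤ))).1
    refine hd b b' fun w hw => hb (br w) ?_
    have hw' : 1 + (r + 1 : ℤ) ≤ w.1 ∧ w.1 ≤ 2 * 2 ^ i - (r + 1 : ℤ) ∧ 0 + (r + 1 : ℤ) ≤ w.2 ∧
      w.2 ≤ M - (r + 1 : ℤ) := hΛ hw
    obtain ⟨w1, w2, w3, w4⟩ := hw'
    have hbr : (w.1 - 1 ≤ (br w).1 ∧ (br w).1 ≤ w.1) ∧ (br w).2 = w.2 ∧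
        ((br w).1 + (br w).2) % 2 = 0 := by
      unfold br
      split_ifs with h
      · exact ⟨⟨by omega, le_refl _⟩, rfl, h⟩
      · refine ⟨⟨le_refl _, ?_⟩, rfl, ?_⟩
        · show w.1 - 1 ≤ w.1
          omega
        · show (w.1 - 1 + w.2) % 2 = 0
          omega
    obtain ⟨⟨b1, b2⟩, b3, b4⟩ := hbr
    have hbulk : Bulk i k (br w) := by
      intro v hv
      have hv' : sd (br w) v ≤ 2 ^ (i - k) := hv
      rw [← hr] at hv'
      unfold sd at hv'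
      have e1 : ((br w).1 - v.1).natAbs ≤ r := (le_max_left _ _).trans hv'
      have e2 : ((br w).2 - v.2).natAbs ≤ r := (le_max_right _ _).trans hv'
      refine ⟨?_, ?_, ?_, ?_⟩
      · omega
      · show v.1 ≤ 2 * 2 ^ i
        omega
      · omega
      · show v.2 ≤ (hh (2 ^ i) : ℤ)
        rw [← hM]
        omega
    refine ⟨?_, not_not.2 hbulk⟩
    unfold VV
    rw [Finset.mem_filter, Finset.mem_product, Finset.mem_Icc, Finset.mem_Icc, ← hM]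
    refine ⟨⟨⟨by omega, by omega⟩, by omega, by omega⟩, b4⟩
  have q2 := h9 (Fc i) G (VV i) {v | ¬ Bulk i k v} (h4 i).1 hdep
  have hF : Fc i = Ev fun c => hcross c true 1 (2 * 2 ^ i) 0 M := rfl
  have q3 : PS i (fun X => ∃ v ∈ X, ¬ Bulk i k v) ≤ 4 * (Pr (Fc i \ G) + Pr (G \ Fc i)) := q2
  rw [hF] at q3
  linarith

end TP
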