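import Pool.Agent.helper61.SP.SpecDX

/-!
# Project sp, module DUP: duality of crossing probabilities
-/

namespace TP

open DP MeasureTheory

/-- The white vertical crossing is the complement of the black horizontal crossing. -/
theorem DUP_compl (c : V → Bool) (a b d e : ℤ) (hab : a ≤ b) (hde : d ≤ e) :
    vcross c false a b d e ↔ ¬ hcross c true a b d e := by
  constructor
  · rintro ⟨u', v', hu', hv', h'⟩ ⟨u, v, hu, hv, h⟩
    obtain ⟨z, hz, hz'⟩ := Asm_RC a b d e {w | w ∈ rect a b d e ∧ c w = true}
      {w | w ∈ rect a b d e ∧ c w = false} (fun w hw => hw.1) (fun w hw => hw.1) u v u' v' hu hv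
      hu' hv' h h'
    have h1 : c z = true := hz.2
    have h2 : c z = false := hz'.2
    rw [h1] at h2
    exact absurd h2 (by simp)
  · intro h
    exact (Asm_HX c true a b d e hab hde).resolve_left h

theorem DUP : DUP_stmt := by
  intro a b d e hab hde
  have : IsProbabilityMeasure P1 := by unfold P1; infer_instance
  have h1 : (Ev fun c => vcross c false a b d e) = (Ev fun c => hcross c true a b d e)ᶜ := by
    ext x
    exact DUP_compl (col x) a b d e hab hde
  have h2 : pv true a b d e = pv false a b d e := (TSX.2 true a b d e).2.symm
  rw [h2, ph, pv, h1, C2_compl (RLM true a b d e).1]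
  ring

end TP
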